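import Mathlib

/-! Definitions for MP_f7f1a6_co (expanding sets which are not van der Corput). -/

open MeasureTheory

namespace VdCExp

/-- The dual group of the discrete abelian group `G`: the homomorphisms `G → S¹`. -/
def Dual (G : Type*) [AddCommGroup G] : Type _ :=
  {χ : G → Circle // ∀ x y, χ (x + y) = χ x * χ y}

/-- The topology of pointwise convergence (the compact-open topology for discrete `G`). -/
instance (G : Type*) [AddCommGroup G] : TopologicalSpace (Dual G) :=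
  inferInstanceAs (TopologicalSpace {χ : G → Circle // ∀ x y, χ (x + y) = χ x * χ y})

/-- The Borel σ-algebra of the dual group. -/
instance (G : Type*) [AddCommGroup G] : MeasurableSpace (Dual G) := borel _

instance (G : Type*) [AddCommGroup G] : BorelSpace (Dual G) := ⟨rfl⟩

/-- The trivial character. -/
noncomputable def triv (G : Type*) [AddCommGroup G] : Dual G := ⟨fun _ => 1, fun _ _ => (mul_one 1).symm⟩

/-- The Bohr set `B(Λ; η)`. -/
def bohr {G : Type*} [AddCommGroup G] (Λ : Finset (Dual G)) (η : ℝ) : Set G :=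
  {x | ∀ χ ∈ Λ, ‖(χ.1 x : ℂ) - 1‖ < η}

/-- Bounded real functions on `G`. -/
def Bdd {G : Type*} (f : G → ℝ) : Prop := ∃ C : ℝ, ∀ x, |f x| ≤ C

/-- A translation invariant mean on `ℓ^∞(G)` (only the values on bounded functions matter). -/
structure InvMean (G : Type*) [AddCommGroup G] where
  /-- the value of the mean -/
  val : (G → ℝ) → ℝ
  add : ∀ f g, Bdd f → Bdd g → val (fun x => f x + g x) = val f + val g
  smul : ∀ (c : ℝ) f, Bdd f → val (fun x => c * f x) = c * val f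
  nonneg : ∀ f, Bdd f → (∀ x, 0 ≤ f x) → 0 ≤ val f
  one : val (fun _ => 1) = 1
  trans : ∀ f (t : G), Bdd f → val (fun x => f (x + t)) = val f

/-- The upper Banach density: the supremum of `m(1_A)` over all invariant means. -/
noncomputable def dstar {G : Type*} [AddCommGroup G] (A : Set G) : ℝ :=
  sSup (Set.range fun m : InvMean G => m.val (A.indicator fun _ => 1))

/-- `(D,B)`-expanding sets: `A - A + S` contains a Bohr set whenever `d^*(A) > 0`. -/
def Expanding {G : Type*} [AddCommGroup G] (S : Set G) : Prop :=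
  ∀ A : Set G, 0 < dstar A → ∃ Λ : Finset (Dual G), ∃ η : ℝ, 0 < η ∧
    bohr Λ η ⊆ {x | ∃ a ∈ A, ∃ a' ∈ A, ∃ s ∈ S, x = a - a' + s}

/-- Van der Corput sets. -/
def VanDerCorput {G : Type*} [AddCommGroup G] (S : Set G) : Prop :=
  ∀ σ : Measure (Dual G), IsFiniteMeasure σ → (∀ s ∈ S, ∫ χ, (χ.1 s : ℂ) ∂σ = 0) →
    σ {triv G} = 0

/-! ### The construction -/

/-- The blocks. -/
abbrev V (N : ℕ → ℕ) (n : ℕ) : Type := Fin (N n) → ZMod 3

/-- The group: the direct sum of the blocks `F_3^{N n}`. -/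
abbrev GG (N : ℕ → ℕ) : Type := Π₀ n : ℕ, V N n

/-- the number of nonzero coordinates -/
def wt {N : ℕ} (v : Fin N → ZMod 3) : ℕ := (Finset.univ.filter fun j => v j ≠ 0).card

/-- `psi_n(v) = 1 - (3/2) |supp v| / N_n`. -/
noncomputable def psi (N : ℕ → ℕ) (n : ℕ) (v : V N n) : ℝ := 1 - 3 / 2 * ((wt v : ℝ) / N n)

/-- Piece 1 (the measure). -/
def StmtMeasure : Prop := ∀ N : ℕ → ℕ, (∀ n, 0 < N n) →
  ∃ ν : Measure (Dual (GG N)), IsProbabilityMeasure ν ∧
    ∀ g : GG N, ∫ χ, (χ.1 g : ℂ) ∂ν = ((∏ n ∈ g.support, psi N n (g n) : ℝ) : ℂ)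

/-- The one-coordinate kernel. -/
noncomputable def kk (θ : ℝ) (v : ZMod 3) : ℝ := if v = 0 then 1 - θ else θ / 2

/-- Piece 2 (reverse hypercontractivity, one-point inequality plus tensorization). -/
def StmtTensor : Prop := ∀ θ : ℝ, 0 < θ → θ < 1 → ∃ r : ℕ, 1 ≤ r ∧
  ∀ (N : ℕ) (A B : Finset (Fin N → ZMod 3)),
    (3 : ℝ) ^ N * (((A.card : ℝ) / 3 ^ N) * ((B.card : ℝ) / 3 ^ N)) ^ r ≤
      ∑ a ∈ A, ∑ b ∈ B, ∏ i, kk θ (b i - a i)

/-- The two-set exact distance property. -/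
def TwoSet (N D : ℕ) (η : ℝ) : Prop :=
  ∀ A B : Finset (Fin N → ZMod 3), η * 3 ^ N ≤ A.card → η * 3 ^ N ≤ B.card →
    ∃ a ∈ A, ∃ b ∈ B, wt (b - a) = D

end VdCExp
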