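import Pool.Agent.R297.VC.Smooth

/-! The two-set exact distance theorem (given the tensor inequality). -/

open Finset Filter Topology

namespace VdCExp

lemma twoSet_of_close {N D : ℕ} (hDN : D ≤ N) (θ η : ℝ) (hη : 0 < η) (r : ℕ)
    (hr : ∀ (A B : Finset (Fin N → ZMod 3)),
      (3 : ℝ) ^ N * (((A.card : ℝ) / 3 ^ N) * ((B.card : ℝ) / 3 ^ N)) ^ r ≤
        ∑ a ∈ A, ∑ b ∈ B, ∏ i, kk θ (b i - a i))
    (ε : ℝ) (hε : ε = (η * η) ^ r / 2)
    (hM : ∀ K : Finset (Fin N), |av N D (-1 / 2) K - (1 - 3 / 2 * θ) ^ K.card| ≤ ε) :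
    TwoSet N D η := by
  classical
  have hε0 : 0 < ε := by rw [hε]; positivity
  intro A B hA hB
  by_contra hcon
  push Not at hcon
  have hC : (0 : ℝ) < 2 ^ D * (N.choose D : ℝ) := by
    have : 0 < N.choose D := Nat.choose_pos hDN
    have : (0 : ℝ) < N.choose D := by exact_mod_cast this
    positivity
  have hCC : ((2 ^ D * (N.choose D : ℝ) : ℝ) : ℂ) ≠ 0 := by exact_mod_cast hC.ne'
  let F : (Fin N → ZMod 3) → ℂ := fun e =>
    (if wt e = D then (1 : ℂ) else 0) / ((2 ^ D * (N.choose D : ℝ) : ℝ) : ℂ)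
      - ((∏ i, kk θ (e i) : ℝ) : ℂ)
  have hF : ∀ ψ : AddChar (Fin N → ZMod 3) ℂ, ‖∑ e, F e * ψ e‖ ≤ ε := by
    intro ψ
    have h1 : ∑ e, F e * ψ e
        = ((av N D (-1 / 2) (cs ψ) - (1 - 3 / 2 * θ) ^ (cs ψ).card : ℝ) : ℂ) := by
      have e1 : ∑ e, F e * ψ e
          = (∑ e : Fin N → ZMod 3, (if wt e = D then (1 : ℂ) else 0) * ψ e)
              / ((2 ^ D * (N.choose D : ℝ) : ℝ) : ℂ)
            - ∑ e : Fin N → ZMod 3, ((∏ i, kk θ (e i) : ℝ) : ℂ) * ψ e := by
        rw [Finset.sum_div, ← Finset.sum_sub_distrib]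
        refine Finset.sum_congr rfl fun e _ => ?_
        simp only [F]
        ring
      rw [e1, sphere_transform, noise_transform, ← Complex.ofReal_div, ← Complex.ofReal_sub]
      congr 2
      unfold av
      rw [mul_div_mul_left _ _ (by positivity)]
    rw [h1, Complex.norm_real, Real.norm_eq_abs]
    exact hM (cs ψ)
  have hb := bilin_bound F ε hε0.le hF A B
  have hsum : ∑ a ∈ A, ∑ b ∈ B, F (b - a)
      = -((∑ a ∈ A, ∑ b ∈ B, ∏ i, kk θ (b i - a i) : ℝ) : ℂ) := by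
    push_cast
    rw [← Finset.sum_neg_distrib]
    refine Finset.sum_congr rfl fun a ha => ?_
    rw [← Finset.sum_neg_distrib]
    refine Finset.sum_congr rfl fun b hb => ?_
    simp only [F]
    rw [if_neg (hcon a ha b hb)]
    simp
  rw [hsum, norm_neg, Complex.norm_real, Real.norm_eq_abs] at hb
  have hlow := hr A B
  have h3N : (0 : ℝ) < 3 ^ N := by positivity
  have hA' : η ≤ (A.card : ℝ) / 3 ^ N := by rw [le_div_iff₀ h3N]; exact hA
  have hB' : η ≤ (B.card : ℝ) / 3 ^ N := by rw [le_div_iff₀ h3N]; exact hB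
  have hlow2 : (3 : ℝ) ^ N * (η * η) ^ r ≤ 3 ^ N * (((A.card : ℝ) / 3 ^ N) * ((B.card : ℝ) / 3 ^ N)) ^ r := by
    refine mul_le_mul_of_nonneg_left ?_ h3N.le
    refine pow_le_pow_left₀ (by positivity) ?_ r
    exact mul_le_mul hA' hB' hη.le (by positivity)
  have hcardV : Fintype.card (Fin N → ZMod 3) = 3 ^ N := by
    simp [ZMod.card]
  have hAc : (A.card : ℝ) ≤ 3 ^ N := by
    have := Finset.card_le_univ A
    rw [hcardV] at this
    exact_mod_cast this
  have hBc : (B.card : ℝ) ≤ 3 ^ N := by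
    have := Finset.card_le_univ B
    rw [hcardV] at this
    exact_mod_cast this
  have h4 : ε * (((A.card : ℝ) + B.card) / 2) ≤ ε * 3 ^ N := by
    refine mul_le_mul_of_nonneg_left ?_ hε0.le
    linarith
  have h5 := (le_abs_self _).trans (hb.trans h4)
  have h6 := (hlow2.trans hlow).trans h5
  rw [hε] at h6
  have h7 : (0 : ℝ) < (η * η) ^ r := by positivity
  nlinarith [mul_pos h3N h7]

theorem twoSet_eventually (hT : StmtTensor) (p q : ℕ) (hp : 0 < p) (hpq : p < q) (η : ℝ)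
    (hη : 0 < η) : ∀ᶠ M : ℕ in atTop, TwoSet (q * M) (p * M) η := by
  classical
  have hq0 : (0 : ℝ) < q := by
    have : 0 < q := by omega
    exact_mod_cast this
  have hθ0 : 0 < (p : ℝ) / q := by
    have : (0 : ℝ) < p := by exact_mod_cast hp
    positivity
  have hθ1 : (p : ℝ) / q < 1 := by
    rw [div_lt_one hq0]; exact_mod_cast hpq
  obtain ⟨r, hr1, hr⟩ := hT _ hθ0 hθ1
  filter_upwards [smoothing p q hp hpq ((η * η) ^ r / 2) (by positivity)] with M hM
  exact twoSet_of_close (Nat.mul_le_mul_right M hpq.le) _ η hη r (hr _) _ rfl hM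

end VdCExp
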