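import Pool.Agent.R297.VC.Mean
import Pool.Agent.R297.VC.TwoSet

/-! The set `S` is expanding. -/

open Finset Filter Topology

namespace VdCExp

variable {N : ℕ → ℕ}

/-- the set -/
def SS (N : ℕ → ℕ) : Set (GG N) := {g | ∏ n ∈ g.support, psi N n (g n) = -1 / 4}

lemma psi_zero (n : ℕ) : psi N n 0 = 1 := by
  simp [psi, wt]

lemma prod_supp_eq (g : GG N) (T : Finset ℕ) (h : ∀ n, n ∉ T → g n = 0) :
    ∏ n ∈ g.support, psi N n (g n) = ∏ n ∈ T, psi N n (g n) := by
  classical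
  refine Finset.prod_subset ?_ ?_
  · intro n hn
    by_contra hT
    rw [DFinsupp.mem_support_iff] at hn
    exact hn (h n hT)
  · intro n _ hn
    rw [DFinsupp.notMem_support_iff] at hn
    rw [hn, psi_zero]

/-- the embedding of finitely many blocks -/
noncomputable def emb (N : ℕ → ℕ) (s k : ℕ) : (∀ i : Fin k, V N (s + i)) →+ GG N :=
  ∑ i : Fin k, (DFinsupp.singleAddHom (fun n => V N n) (s + i)).comp
    (Pi.evalAddMonoidHom (fun i : Fin k => V N (s + i)) i)

lemma emb_apply (s k : ℕ) (f : ∀ i : Fin k, V N (s + i)) :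
    emb N s k f = ∑ i : Fin k, DFinsupp.single (s + (i : ℕ)) (f i) := by
  simp [emb, AddMonoidHom.finset_sum_apply]

lemma emb_coord (s k : ℕ) (f : ∀ i : Fin k, V N (s + i)) (i : Fin k) :
    (emb N s k f) (s + i) = f i := by
  classical
  rw [emb_apply, DFinsupp.finset_sum_apply, Finset.sum_eq_single i]
  · simp
  · intro j _ hj
    have : s + (j : ℕ) ≠ s + (i : ℕ) := by
      intro h
      apply hj
      ext; omega
    rw [DFinsupp.single_eq_of_ne this.symm]
  · intro h; exact absurd (Finset.mem_univ _) h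

lemma emb_off (s k : ℕ) (f : ∀ i : Fin k, V N (s + i)) (n : ℕ) (hn : n < s ∨ s + k ≤ n) :
    (emb N s k f) n = 0 := by
  classical
  rw [emb_apply, DFinsupp.finset_sum_apply]
  refine Finset.sum_eq_zero fun i _ => ?_
  have : n ≠ s + (i : ℕ) := by
    have := i.2
    omega
  rw [DFinsupp.single_eq_of_ne this]

lemma emb_surj (s k : ℕ) (w : GG N) (hw : ∀ n, (n < s ∨ s + k ≤ n) → w n = 0) :
    emb N s k (fun i => w (s + i)) = w := by
  ext1 n
  by_cases hn : n < s ∨ s + k ≤ n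
  · rw [emb_off s k _ n hn, hw n hn]
  · push Not at hn
    have h := emb_coord s k (fun i : Fin k => w (s + i)) ⟨n - s, by omega⟩
    have e : s + ((⟨n - s, by omega⟩ : Fin k) : ℕ) = n := by
      show s + (n - s) = n
      omega
    simp only at h
    rw [show s + (n - s) = n by omega] at h
    exact h

/-- the values on the blocks `s, ..., s + l` -/
noncomputable def cc (s l n : ℕ) : ℝ :=
  if n = s then -((n : ℝ) + 3) / (4 * (n + 2))
  else if n < s + l then 1 - 1 / ((n : ℝ) + 2) ^ 2 else 1 - 1 / ((n : ℝ) + 2)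

lemma prod_cc_aux (s l : ℕ) : ∀ j, j + 1 ≤ l →
    ∏ i ∈ Finset.range (j + 1), cc s l (s + i) = -((s : ℝ) + j + 3) / (4 * (s + j + 2)) := by
  intro j
  induction j with
  | zero =>
    intro h
    simp [cc]
  | succ j ih =>
    intro h
    rw [Finset.prod_range_succ, ih (by omega)]
    have h1 : cc s l (s + (j + 1)) = 1 - 1 / (((s + (j + 1) : ℕ) : ℝ) + 2) ^ 2 := by
      unfold cc
      rw [if_neg (by omega), if_pos (by omega)]
    rw [h1]
    push_cast
    have e1 : (s : ℝ) + j + 2 ≠ 0 := by positivity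
    have e2 : (s : ℝ) + (j + 1) + 2 ≠ 0 := by positivity
    field_simp
    ring

lemma prod_cc (s l : ℕ) (hl : 1 ≤ l) :
    ∏ i ∈ Finset.range (l + 1), cc s l (s + i) = -1 / 4 := by
  obtain ⟨j, rfl⟩ : ∃ j, l = j + 1 := ⟨l - 1, by omega⟩
  rw [Finset.prod_range_succ, prod_cc_aux s (j + 1) j le_rfl]
  have h1 : cc s (j + 1) (s + (j + 1)) = 1 - 1 / (((s + (j + 1) : ℕ) : ℝ) + 2) := by
    unfold cc
    rw [if_neg (by omega), if_neg (by omega)]
  rw [h1]
  push_cast
  have e1 : (s : ℝ) + j + 2 ≠ 0 := by positivity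
  have e2 : (s : ℝ) + (j + 1) + 2 ≠ 0 := by positivity
  field_simp
  ring

/-- the distances on the blocks -/
def dd (M : ℕ → ℕ) (s l n : ℕ) : ℕ :=
  if n = s then (5 * n + 11) * (n + 2) * M n
  else if n < s + l then 4 * M n else 4 * (n + 2) * M n

/-- block sizes -/
def NN (M : ℕ → ℕ) (n : ℕ) : ℕ := 6 * (n + 2) ^ 2 * M n

lemma psi_val (M : ℕ → ℕ) (hM : ∀ n, 0 < M n) (s l n : ℕ) (v : V (NN M) n)
    (hv : wt v = dd M s l n) : psi (NN M) n v = cc s l n := by
  have hMn : (M n : ℝ) ≠ 0 := by exact_mod_cast (hM n).ne'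
  have h2 : (n : ℝ) + 2 ≠ 0 := by positivity
  unfold psi
  rw [hv]
  unfold dd cc NN
  split_ifs
  · push_cast
    field_simp
    ring
  · push_cast
    field_simp
    ring
  · push_cast
    field_simp
    ring

/-- characters detecting the first blocks -/
noncomputable def chr (N : ℕ → ℕ) (p : Σ n : ℕ, Fin (N n)) : Dual (GG N) :=
  ⟨fun g => ZMod.toCircle (g p.1 p.2), fun x y => by
    show ZMod.toCircle ((x + y) p.1 p.2) = _
    rw [DFinsupp.add_apply, Pi.add_apply, AddChar.map_add_eq_mul]⟩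

lemma exists_eta : ∃ η : ℝ, 0 < η ∧ ∀ x : ZMod 3, ‖((ZMod.toCircle x : Circle) : ℂ) - 1‖ < η → x = 0 := by
  have hne : ∀ x : ZMod 3, x ≠ 0 → 0 < ‖((ZMod.toCircle x : Circle) : ℂ) - 1‖ := by
    intro x hx
    rw [norm_pos_iff, sub_ne_zero]
    intro h
    apply hx
    have h1 : ZMod.toCircle x = 1 := by
      ext; simpa using h
    have h2 : ZMod.toCircle x = ZMod.toCircle (0 : ZMod 3) := by
      rw [h1]; simp
    exact ZMod.injective_toCircle h2
  refine ⟨min ‖((ZMod.toCircle (1 : ZMod 3) : Circle) : ℂ) - 1‖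
    ‖((ZMod.toCircle (2 : ZMod 3) : Circle) : ℂ) - 1‖,
    lt_min (hne 1 (by decide)) (hne 2 (by decide)), ?_⟩
  intro x hx
  rw [lt_min_iff] at hx
  fin_cases x
  · rfl
  · exact absurd hx.1 (lt_irrefl _)
  · exact absurd hx.2 (lt_irrefl _)

theorem expanding_SS (M : ℕ → ℕ) (hM : ∀ n, 0 < M n)
    (h1 : ∀ n, TwoSet (NN M n) ((5 * n + 11) * (n + 2) * M n) ((1 / 2) ^ (n + 1)))
    (h2 : ∀ n, TwoSet (NN M n) (4 * M n) ((1 / 2) ^ (n + 1)))
    (h3 : ∀ n, TwoSet (NN M n) (4 * (n + 2) * M n) ((1 / 2) ^ (n + 1))) :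
    Expanding (SS (NN M)) := by
  classical
  intro A hA
  -- an invariant mean
  obtain ⟨m, hm⟩ : ∃ m : InvMean (GG (NN M)), 0 < m.val (A.indicator fun _ => 1) := by
    by_contra hcon
    push Not at hcon
    have : dstar A ≤ 0 := by
      unfold dstar
      refine Real.sSup_le ?_ le_rfl
      rintro _ ⟨m, rfl⟩
      exact hcon m
    linarith
  set δ := m.val (A.indicator fun _ => 1) with hδ
  obtain ⟨s, hs⟩ := exists_pow_lt_of_lt_one (show (0 : ℝ) < δ / 4 by positivity)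
    (show (1 / 2 : ℝ) < 1 by norm_num)
  obtain ⟨η, hη, hηx⟩ := exists_eta
  refine ⟨(Finset.univ : Finset (Σ n : Fin s, Fin (NN M n))).image
    (fun p => chr (NN M) ⟨p.1, p.2⟩), η, hη, ?_⟩
  intro w hw
  have hw0 : ∀ n, n < s → w n = 0 := by
    intro n hn
    funext j
    apply hηx
    exact hw (chr (NN M) ⟨n, j⟩) (by
      rw [Finset.mem_image]
      exact ⟨⟨⟨n, hn⟩, j⟩, Finset.mem_univ _, rfl⟩)
  obtain ⟨l, hl, hwl⟩ : ∃ l : ℕ, 1 ≤ l ∧ ∀ n, s + (l + 1) ≤ n → w n = 0 := by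
    refine ⟨w.support.sup id + 1, by omega, fun n hn => ?_⟩
    by_contra h
    have h4 : n ∈ w.support := by rw [DFinsupp.mem_support_iff]; exact h
    have h5 : id n ≤ w.support.sup id := Finset.le_sup h4
    simp only [id] at h5
    omega
  -- the blocks
  have hgood : ∀ i : Fin (l + 1), Good (fun a b : V (NN M) (s + i) => wt (b - a) = dd M s l (s + i))
      ((1 / 2) ^ (s + (i : ℕ) + 1)) := by
    intro i A B hA hB
    have hc : (Fintype.card (V (NN M) (s + i)) : ℝ) = 3 ^ (NN M (s + i)) := by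
      simp [ZMod.card]
    rw [hc] at hA hB
    unfold dd
    split_ifs
    · exact h1 (s + i) A B hA hB
    · exact h2 (s + i) A B hA hB
    · exact h3 (s + i) A B hA hB
  have hpi := Good.pi (fun i : Fin (l + 1) => V (NN M) (s + i))
    (fun i a b => wt (b - a) = dd M s l (s + i)) (fun i => (1 / 2) ^ (s + (i : ℕ) + 1))
    (fun i => by positivity) hgood (δ / 4) (by positivity)
  have hsum : ∑ i : Fin (l + 1), (1 / 2 : ℝ) ^ (s + (i : ℕ) + 1) + δ / 4 ≤ δ / 2 := by
    have e1 : ∑ i : Fin (l + 1), (1 / 2 : ℝ) ^ (s + (i : ℕ) + 1)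
        = (1 / 2) ^ s * (1 - (1 / 2) ^ (l + 1)) := by
      rw [Fin.sum_univ_eq_sum_range (fun i => (1 / 2 : ℝ) ^ (s + i + 1)) (l + 1)]
      have : ∀ i, (1 / 2 : ℝ) ^ (s + i + 1) = (1 / 2) ^ s * (1 / 2) * (1 / 2) ^ i := by
        intro i; ring
      simp_rw [this]
      rw [← Finset.mul_sum, geom_sum_eq (by norm_num)]
      ring
    rw [e1]
    have e2 : (0 : ℝ) < (1 / 2) ^ (l + 1) := by positivity
    have e3 : (0 : ℝ) < (1 / 2) ^ s := by positivity
    nlinarith
  have hG := hpi.mono hsum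
  haveI : Nonempty (∀ i : Fin (l + 1), V (NN M) (s + i)) := ⟨fun _ => 0⟩
  obtain ⟨x, A', hA', hA'c⟩ := exists_dense m A δ hm hδ.symm
    (∀ i : Fin (l + 1), V (NN M) (s + i)) (emb (NN M) s (l + 1))
  set w' : ∀ i : Fin (l + 1), V (NN M) (s + i) := fun i => w (s + i) with hw'
  have hww' : emb (NN M) s (l + 1) w' = w := emb_surj s (l + 1) w (by
    rintro n (hn | hn)
    · exact hw0 n hn
    · exact hwl n hn)
  obtain ⟨a, ha, b, hb, hab⟩ := hG A' (A'.map (Equiv.addRight w').toEmbedding) hA'c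
    (by rw [Finset.card_map]; exact hA'c)
  rw [Finset.mem_map] at hb
  obtain ⟨a', ha', rfl⟩ := hb
  refine ⟨x + emb (NN M) s (l + 1) a, (hA' a).mp ha, x + emb (NN M) s (l + 1) a', (hA' a').mp ha',
    emb (NN M) s (l + 1) (a' + w' - a), ?_, ?_⟩
  · show ∏ n ∈ (emb (NN M) s (l + 1) (a' + w' - a)).support,
      psi (NN M) n ((emb (NN M) s (l + 1) (a' + w' - a)) n) = -1 / 4
    rw [prod_supp_eq _ (Finset.Ico s (s + (l + 1))) (by
      intro n hn
      apply emb_off
      rw [Finset.mem_Ico] at hn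
      omega)]
    rw [Finset.prod_Ico_eq_prod_range, show s + (l + 1) - s = l + 1 by omega, ← prod_cc s l hl]
    refine Finset.prod_congr rfl fun i hi => ?_
    rw [Finset.mem_range] at hi
    refine psi_val M hM s l (s + i) _ ?_
    have := emb_coord (N := NN M) s (l + 1) (a' + w' - a) ⟨i, hi⟩
    simp only at this
    rw [this]
    exact hab ⟨i, hi⟩
  · rw [map_sub, map_add, hww']
    abel

end VdCExp
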