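import Pool.Agent.R297.VC.Defs

/-! Fourier analysis on `F_3^N`: from small Fourier transform to bilinear bounds. -/

open Finset

namespace VdCExp

section general
variable {W : Type} [AddCommGroup W] [Fintype W] [DecidableEq W]

/-- Fourier transform bound implies bilinear bound. -/
lemma bilin_bound (F : W → ℂ) (M : ℝ) (hM : 0 ≤ M)
    (hF : ∀ ψ : AddChar W ℂ, ‖∑ e, F e * ψ e‖ ≤ M) (A B : Finset W) :
    ‖∑ a ∈ A, ∑ b ∈ B, F (b - a)‖ ≤ M * (((A.card : ℝ) + B.card) / 2) := by
  classical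
  have hcard : (0 : ℝ) < Fintype.card W := by
    exact_mod_cast Fintype.card_pos
  have hcardC : (Fintype.card W : ℂ) ≠ 0 := by
    exact_mod_cast hcard.ne'
  -- inversion
  have hinv : ∀ x : W, (Fintype.card W : ℂ) * F x =
      ∑ ψ : AddChar W ℂ, (∑ e, F e * ψ e) * ψ (-x) := by
    intro x
    have h1 : ∑ ψ : AddChar W ℂ, (∑ e, F e * ψ e) * ψ (-x)
        = ∑ e, F e * ∑ ψ : AddChar W ℂ, ψ (e - x) := by
      simp_rw [Finset.sum_mul, Finset.mul_sum]
      rw [Finset.sum_comm]
      refine Finset.sum_congr rfl fun e _ => Finset.sum_congr rfl fun ψ _ => ?_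
      rw [sub_eq_add_neg, AddChar.map_add_eq_mul, mul_assoc]
    rw [h1]
    simp_rw [AddChar.sum_apply_eq_ite, sub_eq_zero]
    simp [mul_comm]
  have hpars : ∀ C : Finset W, ∑ ψ : AddChar W ℂ, ‖∑ a ∈ C, ψ a‖ ^ 2
      = (Fintype.card W : ℝ) * C.card := by
    intro C
    have h1 : ((∑ ψ : AddChar W ℂ, ‖∑ a ∈ C, ψ a‖ ^ 2 : ℝ) : ℂ)
        = ∑ a ∈ C, ∑ b ∈ C, ∑ ψ : AddChar W ℂ, ψ (a - b) := by
      push_cast
      have h2 : ∀ ψ : AddChar W ℂ, ((‖∑ a ∈ C, ψ a‖ : ℂ)) ^ 2
          = ∑ a ∈ C, ∑ b ∈ C, ψ (a - b) := by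
        intro ψ
        rw [← Complex.mul_conj', map_sum, Finset.sum_mul_sum]
        refine Finset.sum_congr rfl fun a _ => Finset.sum_congr rfl fun b _ => ?_
        rw [sub_eq_add_neg, AddChar.map_add_eq_mul, AddChar.map_neg_eq_conj]
      simp_rw [h2]
      rw [Finset.sum_comm]
      refine Finset.sum_congr rfl fun a _ => ?_
      rw [Finset.sum_comm]
    have h3 : ∑ a ∈ C, ∑ b ∈ C, ∑ ψ : AddChar W ℂ, ψ (a - b)
        = ((Fintype.card W : ℝ) * C.card : ℝ) := by
      simp_rw [AddChar.sum_apply_eq_ite, sub_eq_zero]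
      simp [mul_comm]
    have h4 := h1.trans h3
    exact_mod_cast h4
  have hmain : (Fintype.card W : ℂ) * ∑ a ∈ A, ∑ b ∈ B, F (b - a)
      = ∑ ψ : AddChar W ℂ, (∑ e, F e * ψ e) * ((∑ a ∈ A, ψ a) * ∑ b ∈ B, ψ (-b)) := by
    rw [Finset.mul_sum]
    simp_rw [Finset.mul_sum, hinv]
    rw [Finset.sum_comm' (t' := B) (s' := fun _ => A) (by tauto)]
    calc ∑ y ∈ B, ∑ x ∈ A, ∑ ψ : AddChar W ℂ, (∑ e, F e * ψ e) * ψ (-(y - x))
        = ∑ y ∈ B, ∑ ψ : AddChar W ℂ, ∑ x ∈ A, (∑ e, F e * ψ e) * ψ (-(y - x)) := by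
          refine Finset.sum_congr rfl fun y _ => Finset.sum_comm
      _ = ∑ ψ : AddChar W ℂ, ∑ y ∈ B, ∑ x ∈ A, (∑ e, F e * ψ e) * ψ (-(y - x)) :=
          Finset.sum_comm
      _ = _ := by
          refine Finset.sum_congr rfl fun ψ _ => ?_
          generalize (∑ e, F e * ψ e) = T
          refine Finset.sum_congr rfl fun b _ => ?_
          rw [Finset.sum_mul, Finset.mul_sum]
          refine Finset.sum_congr rfl fun a _ => ?_
          rw [show -(b - a) = a + (-b) by abel, AddChar.map_add_eq_mul]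
  have hnorm : (Fintype.card W : ℝ) * ‖∑ a ∈ A, ∑ b ∈ B, F (b - a)‖
      ≤ M * ((Fintype.card W : ℝ) * ((A.card + B.card) / 2)) := by
    have e1 : (Fintype.card W : ℝ) * ‖∑ a ∈ A, ∑ b ∈ B, F (b - a)‖
        = ‖(Fintype.card W : ℂ) * ∑ a ∈ A, ∑ b ∈ B, F (b - a)‖ := by
      rw [norm_mul]; simp
    rw [e1, hmain]
    refine (norm_sum_le _ _).trans ?_
    have hB : ∀ ψ : AddChar W ℂ, ‖∑ b ∈ B, ψ (-b)‖ = ‖∑ b ∈ B, ψ b‖ := by
      intro ψ
      simp_rw [AddChar.map_neg_eq_conj]
      rw [← map_sum, RCLike.norm_conj]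
    calc ∑ ψ : AddChar W ℂ, ‖(∑ e, F e * ψ e) * ((∑ a ∈ A, ψ a) * ∑ b ∈ B, ψ (-b))‖
        ≤ ∑ ψ : AddChar W ℂ, M * ((‖∑ a ∈ A, ψ a‖ ^ 2 + ‖∑ b ∈ B, ψ b‖ ^ 2) / 2) := by
          refine Finset.sum_le_sum fun ψ _ => ?_
          rw [norm_mul, norm_mul, hB]
          refine mul_le_mul (hF ψ) ?_ (by positivity) hM
          nlinarith [sq_nonneg (‖∑ a ∈ A, ψ a‖ - ‖∑ b ∈ B, ψ b‖)]
      _ = M * ((Fintype.card W : ℝ) * ((A.card + B.card) / 2)) := by
          rw [← Finset.mul_sum, ← Finset.sum_div, Finset.sum_add_distrib, hpars, hpars]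
          ring
  nlinarith [hnorm]

end general

section block
variable {N : ℕ}

/-- coordinate characters -/
lemma char_prod (ψ : AddChar (Fin N → ZMod 3) ℂ) (e : Fin N → ZMod 3) :
    ψ e = ∏ i, ψ (Pi.single i (e i)) := by
  conv_lhs => rw [← Finset.univ_sum_single e]
  induction (Finset.univ : Finset (Fin N)) using Finset.induction_on with
  | empty => simp
  | insert a s ha ih => rw [Finset.sum_insert ha, Finset.prod_insert ha, AddChar.map_add_eq_mul, ih]

/-- the set of coordinates on which the character is nontrivial -/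
noncomputable def cs (ψ : AddChar (Fin N → ZMod 3) ℂ) : Finset (Fin N) := by
  classical
  exact Finset.univ.filter fun i => ∃ v : ZMod 3, ψ (Pi.single i v) ≠ 1

lemma sum_coord (ψ : AddChar (Fin N → ZMod 3) ℂ) (i : Fin N) :
    ∑ v ∈ (Finset.univ.filter fun v : ZMod 3 => v ≠ 0), ψ (Pi.single i v)
      = if i ∈ cs ψ then -1 else 2 := by
  classical
  let f : ZMod 3 →+ (Fin N → ZMod 3) := AddMonoidHom.single (fun _ => ZMod 3) i
  let ψi : AddChar (ZMod 3) ℂ := ψ.compAddMonoidHom f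
  have hψi : ∀ v, ψi v = ψ (Pi.single i v) := fun v => rfl
  have hsum := AddChar.sum_eq_ite ψi
  have h1 : ∑ v, ψi v = 1 + ∑ v ∈ (Finset.univ.filter fun v : ZMod 3 => v ≠ 0), ψ (Pi.single i v) := by
    rw [← Finset.add_sum_erase _ _ (Finset.mem_univ (0 : ZMod 3))]
    have e0 : ψi 0 = 1 := by simp
    rw [e0]
    have e1 : (Finset.univ.erase (0 : ZMod 3)) = Finset.univ.filter fun v : ZMod 3 => v ≠ 0 := by
      ext v; simp
    rw [e1]
    rfl
  have h2 : ψi = 0 ↔ i ∉ cs ψ := by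
    unfold cs
    simp only [Finset.mem_filter, Finset.mem_univ, true_and, not_exists, not_not]
    constructor
    · intro h v
      rw [← hψi, h]; simp
    · intro h
      ext v
      rw [hψi, h]; simp
  by_cases hi : i ∈ cs ψ
  · rw [if_pos hi]
    have : ψi ≠ 0 := fun h => (h2.mp h) hi
    rw [if_neg this] at hsum
    linear_combination hsum - h1
  · rw [if_neg hi]
    have : ψi = 0 := h2.mpr hi
    rw [if_pos this] at hsum
    rw [h1] at hsum
    simp [ZMod.card] at hsum
    linear_combination hsum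

/-- transform of the product noise -/
lemma noise_transform (θ : ℝ) (ψ : AddChar (Fin N → ZMod 3) ℂ) :
    ∑ e : Fin N → ZMod 3, ((∏ i, kk θ (e i) : ℝ) : ℂ) * ψ e
      = (((1 - 3 / 2 * θ) ^ (cs ψ).card : ℝ) : ℂ) := by
  classical
  have h1 : ∀ e : Fin N → ZMod 3, ((∏ i, kk θ (e i) : ℝ) : ℂ) * ψ e
      = ∏ i, ((kk θ (e i) : ℂ) * ψ (Pi.single i (e i))) := by
    intro e
    rw [char_prod ψ e, Finset.prod_mul_distrib]
    push_cast
    rfl
  simp_rw [h1]
  have h2 : ∑ e : Fin N → ZMod 3, ∏ i, ((kk θ (e i) : ℂ) * ψ (Pi.single i (e i)))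
      = ∏ i, ∑ v : ZMod 3, ((kk θ v : ℂ) * ψ (Pi.single i v)) := by
    rw [Finset.prod_univ_sum]
    simp [Fintype.piFinset_univ]
  rw [h2]
  have h3 : ∀ i, ∑ v : ZMod 3, ((kk θ v : ℂ) * ψ (Pi.single i v))
      = if i ∈ cs ψ then ((1 - 3 / 2 * θ : ℝ) : ℂ) else 1 := by
    intro i
    have e1 : ∑ v : ZMod 3, ((kk θ v : ℂ) * ψ (Pi.single i v))
        = (1 - θ : ℂ) + (θ / 2) * ∑ v ∈ (Finset.univ.filter fun v : ZMod 3 => v ≠ 0),
            ψ (Pi.single i v) := by
      rw [← Finset.add_sum_erase _ _ (Finset.mem_univ (0 : ZMod 3)), Finset.mul_sum]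
      congr 1
      · simp [kk]
      · refine Finset.sum_congr ?_ fun v hv => ?_
        · ext v; simp
        · have : v ≠ 0 := by simpa using hv
          simp [kk, this]
    rw [e1, sum_coord]
    split_ifs
    · push_cast; ring
    · ring
  simp_rw [h3]
  rw [Finset.prod_ite_mem]
  simp

/-- the coordinates of a vector of given support -/
lemma supp_eq (R : Finset (Fin N)) :
    (Finset.univ.filter fun e : Fin N → ZMod 3 => (Finset.univ.filter fun j => e j ≠ 0) = R)
      = Fintype.piFinset (fun i => if i ∈ R then (Finset.univ.filter fun v : ZMod 3 => v ≠ 0)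
          else {0}) := by
  classical
  ext e
  simp only [Finset.mem_filter, Finset.mem_univ, true_and, Fintype.mem_piFinset]
  constructor
  · intro h i
    by_cases hi : i ∈ R
    · rw [if_pos hi]
      rw [← h] at hi
      simpa using hi
    · rw [if_neg hi]
      rw [← h] at hi
      simpa using hi
  · intro h
    ext i
    have := h i
    by_cases hi : i ∈ R
    · rw [if_pos hi] at this
      simp at this
      simp [this, hi]
    · rw [if_neg hi] at this
      simp at this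
      simp [this, hi]

/-- transform of the sphere -/
lemma sphere_transform (D : ℕ) (ψ : AddChar (Fin N → ZMod 3) ℂ) :
    ∑ e : Fin N → ZMod 3, (if wt e = D then (1 : ℂ) else 0) * ψ e
      = ((2 ^ D * ∑ R ∈ Finset.powersetCard D (Finset.univ : Finset (Fin N)),
          (-1 / 2 : ℝ) ^ (R ∩ cs ψ).card : ℝ) : ℂ) := by
  classical
  have h0 : ∑ e : Fin N → ZMod 3, (if wt e = D then (1 : ℂ) else 0) * ψ e
      = ∑ e ∈ (Finset.univ.filter fun e : Fin N → ZMod 3 => wt e = D), ψ e := by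
    rw [Finset.sum_filter]
    refine Finset.sum_congr rfl fun e _ => ?_
    split_ifs <;> simp
  rw [h0]
  have h1 : ∑ e ∈ (Finset.univ.filter fun e : Fin N → ZMod 3 => wt e = D), ψ e
      = ∑ R ∈ Finset.powersetCard D (Finset.univ : Finset (Fin N)),
        ∑ e ∈ (Finset.univ.filter fun e : Fin N → ZMod 3 =>
          (Finset.univ.filter fun j => e j ≠ 0) = R), ψ e := by
    rw [← Finset.sum_fiberwise_of_maps_to (s := Finset.univ.filter fun e : Fin N → ZMod 3 => wt e = D)
      (t := Finset.powersetCard D (Finset.univ : Finset (Fin N)))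
      (g := fun e => Finset.univ.filter fun j => e j ≠ 0)]
    · refine Finset.sum_congr rfl fun R hR => ?_
      refine Finset.sum_congr ?_ fun _ _ => rfl
      ext e
      rw [Finset.mem_powersetCard] at hR
      constructor
      · intro h
        rw [Finset.mem_filter] at h
        rw [Finset.mem_filter]
        exact ⟨Finset.mem_univ _, h.2⟩
      · intro h
        rw [Finset.mem_filter] at h
        rw [Finset.mem_filter, Finset.mem_filter]
        refine ⟨⟨Finset.mem_univ _, ?_⟩, h.2⟩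
        show (Finset.univ.filter fun j => e j ≠ 0).card = D
        rw [h.2]; exact hR.2
    · intro e he
      rw [Finset.mem_powersetCard]
      refine ⟨Finset.subset_univ _, ?_⟩
      rw [Finset.mem_filter] at he
      exact he.2
  rw [h1]
  push_cast
  rw [Finset.mul_sum]
  refine Finset.sum_congr rfl fun R hR => ?_
  rw [supp_eq]
  rw [Finset.sum_congr rfl fun e _ => char_prod ψ e]
  rw [← Finset.prod_univ_sum (t := fun i => if i ∈ R then
      (Finset.univ.filter fun v : ZMod 3 => v ≠ 0) else {0})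
      (f := fun i v => ψ (Pi.single i v))]
  have h2 : ∀ i, ∑ v ∈ (if i ∈ R then (Finset.univ.filter fun v : ZMod 3 => v ≠ 0) else {0}),
      ψ (Pi.single i v) = if i ∈ R then (2 : ℂ) * (if i ∈ cs ψ then (-1 / 2 : ℂ) else 1) else 1 := by
    intro i
    by_cases hi : i ∈ R
    · rw [if_pos hi, if_pos hi, sum_coord]
      split_ifs <;> norm_num
    · rw [if_neg hi, if_neg hi]
      simp
  simp_rw [h2]
  rw [Finset.prod_ite_mem, Finset.univ_inter, Finset.prod_mul_distrib]
  rw [Finset.mem_powersetCard] at hR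
  rw [Finset.prod_const, hR.2, Finset.prod_ite_mem]
  simp [div_pow]

end block

end VdCExp
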