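import Pool.Agent.R297.VC.Defs

/-! The product lemma for two-set relations. -/

open Finset

namespace VdCExp

/-- `R` is `η`-good. -/
def Good {X : Type} [Fintype X] (R : X → X → Prop) (η : ℝ) : Prop :=
  ∀ A B : Finset X, η * Fintype.card X ≤ A.card → η * Fintype.card X ≤ B.card →
    ∃ a ∈ A, ∃ b ∈ B, R a b

lemma Good.mono {X : Type} [Fintype X] {R : X → X → Prop} {η η' : ℝ} (h : Good R η)
    (hη : η ≤ η') : Good R η' := by
  intro A B hA hB
  refine h A B (le_trans ?_ hA) (le_trans ?_ hB) <;>
  exact mul_le_mul_of_nonneg_right hη (Nat.cast_nonneg _)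

/-- slices -/
lemma slice_bound {X Y : Type} [Fintype X] [Fintype Y] [DecidableEq X] [DecidableEq Y] [Nonempty X]
    (η η' : ℝ) (hη : 0 ≤ η) (A : Finset (X × Y))
    (hA : (η + η') * Fintype.card (X × Y) ≤ A.card) :
    η' * Fintype.card Y ≤ ((Finset.univ.filter fun y : Y =>
      η * Fintype.card X ≤ ((Finset.univ.filter fun x : X => (x, y) ∈ A).card : ℝ)).card : ℝ) := by
  classical
  set s : Y → Finset X := fun y => Finset.univ.filter fun x : X => (x, y) ∈ A with hs
  set T := Finset.univ.filter fun y : Y => η * Fintype.card X ≤ ((s y).card : ℝ) with hT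
  have hcard : A.card = ∑ y, (s y).card := by
    rw [Finset.card_eq_sum_card_fiberwise (f := Prod.snd) (t := Finset.univ) (fun _ _ => Finset.mem_univ _)]
    refine Finset.sum_congr rfl fun y _ => ?_
    refine Finset.card_bij' (fun p _ => p.1) (fun x _ => (x, y)) ?_ ?_ ?_ ?_
    · rintro ⟨x, y'⟩ h
      simp only [Finset.mem_filter] at h
      obtain ⟨h1, h2⟩ := h
      simp only [hs, Finset.mem_filter, Finset.mem_univ, true_and]
      subst h2
      exact h1
    · intro x h
      simp only [hs, Finset.mem_filter, Finset.mem_univ, true_and] at h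
      simp [h]
    · rintro ⟨x, y'⟩ h
      simp only [Finset.mem_filter] at h
      simp [h.2]
    · intro x _; rfl
  have hX : (0 : ℝ) < Fintype.card X := by exact_mod_cast Fintype.card_pos
  have hsX : ∀ y, ((s y).card : ℝ) ≤ Fintype.card X := by
    intro y; exact_mod_cast Finset.card_le_univ _
  have h1 : (A.card : ℝ) ≤ T.card * Fintype.card X + Fintype.card Y * (η * Fintype.card X) := by
    rw [hcard]
    push_cast
    calc ∑ y, ((s y).card : ℝ)
        ≤ ∑ y, ((if y ∈ T then (Fintype.card X : ℝ) else 0) + η * Fintype.card X) := by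
          refine Finset.sum_le_sum fun y _ => ?_
          by_cases hy : y ∈ T
          · rw [if_pos hy]
            have : 0 ≤ η * Fintype.card X := by positivity
            linarith [hsX y]
          · rw [if_neg hy]
            have : ¬ (η * Fintype.card X ≤ ((s y).card : ℝ)) := by
              intro h; exact hy (by rw [hT]; simp [h])
            push Not at this
            linarith
      _ = T.card * Fintype.card X + Fintype.card Y * (η * Fintype.card X) := by
          rw [Finset.sum_add_distrib, Finset.sum_ite_mem]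
          simp [Finset.card_univ]
  have h2 : (Fintype.card (X × Y) : ℝ) = Fintype.card X * Fintype.card Y := by
    simp [Fintype.card_prod]
  rw [h2] at hA
  have h3 := hA.trans h1
  have h4 : (η' * Fintype.card Y) * Fintype.card X ≤ T.card * Fintype.card X := by nlinarith
  exact le_of_mul_le_mul_right h4 hX

lemma Good.prod {X Y : Type} [Fintype X] [Fintype Y] [Nonempty X]
    {R : X → X → Prop} {R' : Y → Y → Prop} {η η' : ℝ} (hη : 0 ≤ η)
    (h : Good R η) (h' : Good R' η') :
    Good (fun a b : X × Y => R a.1 b.1 ∧ R' a.2 b.2) (η + η') := by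
  classical
  intro A B hA hB
  obtain ⟨y, hy, y', hy', hR'⟩ := h' _ _ (slice_bound η η' hη A hA) (slice_bound η η' hη B hB)
  rw [Finset.mem_filter] at hy hy'
  obtain ⟨x, hx, x', hx', hR⟩ := h _ _ hy.2 hy'.2
  rw [Finset.mem_filter] at hx hx'
  exact ⟨(x, y), hx.2, (x', y'), hx'.2, hR, hR'⟩

lemma Good.equiv {X Y : Type} [Fintype X] [Fintype Y] (e : X ≃ Y)
    {R : X → X → Prop} {R' : Y → Y → Prop} {η : ℝ} (h : Good R η)
    (hRR' : ∀ a b, R a b → R' (e a) (e b)) : Good R' η := by
  classical
  intro A B hA hB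
  have hc : Fintype.card X = Fintype.card Y := Fintype.card_congr e
  obtain ⟨a, ha, b, hb, hR⟩ := h (A.map e.symm.toEmbedding) (B.map e.symm.toEmbedding)
    (by rw [Finset.card_map, hc]; exact hA) (by rw [Finset.card_map, hc]; exact hB)
  rw [Finset.mem_map] at ha hb
  obtain ⟨a', ha', rfl⟩ := ha
  obtain ⟨b', hb', rfl⟩ := hb
  refine ⟨a', ha', b', hb', ?_⟩
  have := hRR' _ _ hR
  simpa using this

lemma Good.pi {k : ℕ} : ∀ (X : Fin k → Type) [∀ i, Fintype (X i)] [∀ i, Nonempty (X i)]
    (R : ∀ i, X i → X i → Prop) (η : Fin k → ℝ) (_ : ∀ i, 0 ≤ η i)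
    (_ : ∀ i, Good (R i) (η i)) (δ : ℝ) (_ : 0 < δ),
    Good (fun a b : ∀ i, X i => ∀ i, R i (a i) (b i)) (∑ i, η i + δ) := by
  induction k with
  | zero =>
    intro X _ _ R η hη hR δ hδ A B hA hB
    have hc : Fintype.card (∀ i : Fin 0, X i) = 1 := by simp
    rw [hc] at hA hB
    simp at hA hB
    have hA' : 0 < A.card := by
      by_contra hcon
      push Not at hcon
      have : A.card = 0 := by omega
      rw [this] at hA
      simp at hA
      linarith
    have hB' : 0 < B.card := by
      by_contra hcon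
      push Not at hcon
      have : B.card = 0 := by omega
      rw [this] at hB
      simp at hB
      linarith
    obtain ⟨a, ha⟩ := Finset.card_pos.mp hA'
    obtain ⟨b, hb⟩ := Finset.card_pos.mp hB'
    exact ⟨a, ha, b, hb, fun i => i.elim0⟩
  | succ k ih =>
    intro X _ _ R η hη hR δ hδ
    have h1 := ih (fun i => X i.succ) (fun i => R i.succ) (fun i => η i.succ)
      (fun i => hη _) (fun i => hR _) δ hδ
    have h2 := Good.prod (hη 0) (hR 0) h1
    have h3 := Good.equiv (Fin.consEquiv X) h2 (R' := fun a b => ∀ i, R i (a i) (b i)) (by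
      rintro ⟨a0, a⟩ ⟨b0, b⟩ ⟨h0, h⟩ i
      refine Fin.cases ?_ (fun j => ?_) i
      · simpa using h0
      · simpa using h j)
    refine h3.mono (le_of_eq ?_)
    rw [Fin.sum_univ_succ]; ring

end VdCExp
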