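import Pool.Agent.R297.VC.Expand

/-! The final theorem (given the two pieces). -/

open MeasureTheory Filter Topology

namespace VdCExp

theorem main_of (hT : StmtTensor) (hMs : StmtMeasure) :
    ∃ (G : Type) (_ : AddCommGroup G) (S : Set G), Countable G ∧ (∀ g : G, 3 • g = 0) ∧
      Expanding S ∧
      ∃ σ : Measure (Dual G), IsProbabilityMeasure σ ∧ (∀ s ∈ S, ∫ χ, (χ.1 s : ℂ) ∂σ = 0) ∧
        0 < σ {triv G} := by
  -- choice of the block sizes
  have hex : ∀ n : ℕ, ∃ M : ℕ, 0 < M ∧
      TwoSet (6 * (n + 2) ^ 2 * M) ((5 * n + 11) * (n + 2) * M) ((1 / 2) ^ (n + 1)) ∧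
      TwoSet (6 * (n + 2) ^ 2 * M) (4 * M) ((1 / 2) ^ (n + 1)) ∧
      TwoSet (6 * (n + 2) ^ 2 * M) (4 * (n + 2) * M) ((1 / 2) ^ (n + 1)) := by
    intro n
    have e1 := twoSet_eventually hT ((5 * n + 11) * (n + 2)) (6 * (n + 2) ^ 2) (by positivity)
      (by nlinarith) ((1 / 2) ^ (n + 1)) (by positivity)
    have h24 : 4 < 6 * (n + 2) ^ 2 := by
      have h2n : 2 ≤ n + 2 := by omega
      have := Nat.pow_le_pow_left h2n 2
      omega
    have e2 := twoSet_eventually hT 4 (6 * (n + 2) ^ 2) (by positivity)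
      h24 ((1 / 2) ^ (n + 1)) (by positivity)
    have e3 := twoSet_eventually hT (4 * (n + 2)) (6 * (n + 2) ^ 2) (by positivity)
      (by nlinarith) ((1 / 2) ^ (n + 1)) (by positivity)
    obtain ⟨M, hM, h1, h2, h3⟩ := ((eventually_gt_atTop 0).and (e1.and (e2.and e3))).exists
    exact ⟨M, hM, h1, h2, h3⟩
  choose M hM0 hM1 hM2 hM3 using hex
  have hN : ∀ n, 0 < NN M n := fun n => by
    unfold NN; exact Nat.mul_pos (by positivity) (hM0 n)
  obtain ⟨ν, hν, hνg⟩ := hMs (NN M) hN
  refine ⟨GG (NN M), inferInstance, SS (NN M), inferInstance, ?_, ?_, ?_⟩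
  · intro g
    ext n j
    show (3 • g) n j = 0
    rw [DFinsupp.smul_apply, Pi.smul_apply]
    have h3 : ∀ x : ZMod 3, 3 • x = 0 := by decide
    exact h3 _
  · exact expanding_SS M hM0 hM1 hM2 hM3
  · haveI : T2Space (Dual (GG (NN M))) :=
      inferInstanceAs (T2Space {χ : GG (NN M) → Circle // ∀ x y, χ (x + y) = χ x * χ y})
    have hint : ∀ (μ : Measure (Dual (GG (NN M)))) [IsFiniteMeasure μ] (g : GG (NN M)),
        Integrable (fun χ : Dual (GG (NN M)) => (χ.1 g : ℂ)) μ := by
      intro μ _ g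
      have hc : Continuous fun χ : Dual (GG (NN M)) => (χ.1 g : ℂ) := by
        have h1 : Continuous (fun z : Circle => (z : ℂ)) := continuous_induced_dom
        exact h1.comp ((continuous_apply g).comp continuous_subtype_val)
      refine Integrable.of_bound hc.measurable.aestronglyMeasurable 1 ?_
      exact Filter.Eventually.of_forall fun χ => (Circle.norm_coe _).le
    refine ⟨(ENNReal.ofReal (1 / 5)) • Measure.dirac (triv _) + (ENNReal.ofReal (4 / 5)) • ν,
      ⟨?_⟩, ?_, ?_⟩
    · simp only [Measure.coe_add, Measure.coe_smul, Pi.add_apply, Pi.smul_apply, measure_univ,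
        smul_eq_mul, mul_one]
      rw [← ENNReal.ofReal_add (by norm_num) (by norm_num)]
      norm_num
    · intro s hs
      rw [integral_add_measure ((hint _ s).smul_measure ENNReal.ofReal_ne_top)
        ((hint _ s).smul_measure ENNReal.ofReal_ne_top), integral_smul_measure,
        integral_smul_measure, integral_dirac, hνg s]
      have hs' : ∏ n ∈ s.support, psi (NN M) n (s n) = -1 / 4 := hs
      rw [hs', ENNReal.toReal_ofReal (by norm_num), ENNReal.toReal_ofReal (by norm_num)]
      simp [triv]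
      norm_num
    · simp only [Measure.coe_add, Measure.coe_smul, Pi.add_apply, Pi.smul_apply, smul_eq_mul]
      have : (Measure.dirac (triv (GG (NN M)))) {triv (GG (NN M))} = 1 := by
        apply Measure.dirac_apply_of_mem
        exact Set.mem_singleton _
      rw [this, mul_one]
      have h5 : (0 : ENNReal) < ENNReal.ofReal (1 / 5) := by
        rw [ENNReal.ofReal_pos]; norm_num
      exact lt_of_lt_of_le h5 le_self_add

end VdCExp
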