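import Pool.Agent.R297.VC.Good

/-! Invariant means: averaging over a finite family of translations. -/

open Finset

set_option linter.unusedSectionVars false

namespace VdCExp

variable {G : Type} [AddCommGroup G]

lemma Bdd.add {f g : G → ℝ} (hf : Bdd f) (hg : Bdd g) : Bdd (fun x => f x + g x) := by
  obtain ⟨C, hC⟩ := hf
  obtain ⟨D, hD⟩ := hg
  exact ⟨C + D, fun x => (abs_add_le _ _).trans (add_le_add (hC x) (hD x))⟩

lemma Bdd.mul_const {f : G → ℝ} (c : ℝ) (hf : Bdd f) : Bdd (fun x => c * f x) := by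
  obtain ⟨C, hC⟩ := hf
  exact ⟨|c| * C, fun x => by rw [abs_mul]; exact mul_le_mul_of_nonneg_left (hC x) (abs_nonneg _)⟩

lemma bdd_const (c : ℝ) : Bdd (fun _ : G => c) := ⟨|c|, fun _ => le_rfl⟩

lemma Bdd.trans {f : G → ℝ} (t : G) (hf : Bdd f) : Bdd (fun x => f (x + t)) := by
  obtain ⟨C, hC⟩ := hf
  exact ⟨C, fun x => hC _⟩

lemma bdd_sum {ι : Type} (s : Finset ι) (f : ι → G → ℝ) (hf : ∀ i, Bdd (f i)) :
    Bdd (fun x => ∑ i ∈ s, f i x) := by
  classical
  induction s using Finset.induction_on with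
  | empty => simpa using bdd_const (G := G) 0
  | insert a s ha ih =>
    simp_rw [Finset.sum_insert ha]
    exact (hf a).add ih

lemma InvMean.zero (m : InvMean G) : m.val (fun _ => 0) = 0 := by
  have := m.smul 0 (fun _ => 0) (bdd_const 0)
  simpa using this

lemma InvMean.const (m : InvMean G) (c : ℝ) : m.val (fun _ => c) = c := by
  have := m.smul c (fun _ => 1) (bdd_const 1)
  simpa [m.one] using this

lemma InvMean.sum (m : InvMean G) {ι : Type} (s : Finset ι) (f : ι → G → ℝ)
    (hf : ∀ i, Bdd (f i)) : m.val (fun x => ∑ i ∈ s, f i x) = ∑ i ∈ s, m.val (f i) := by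
  classical
  induction s using Finset.induction_on with
  | empty => simpa using m.zero
  | insert a s ha ih =>
    simp_rw [Finset.sum_insert ha]
    rw [m.add _ _ (hf a) (bdd_sum s f hf), ih]

lemma InvMean.mono (m : InvMean G) {f g : G → ℝ} (hf : Bdd f) (hg : Bdd g)
    (h : ∀ x, f x ≤ g x) : m.val f ≤ m.val g := by
  have h1 := m.add f (fun x => g x + (-1) * f x) hf (hg.add (hf.mul_const _))
  have h2 : (fun x => f x + (g x + (-1) * f x)) = g := by
    funext x; ring
  rw [h2] at h1
  have h3 := m.nonneg (fun x => g x + (-1) * f x) (hg.add (hf.mul_const _))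
    (fun x => by linarith [h x])
  linarith

/-- Averaging. -/
lemma exists_dense (m : InvMean G) (A : Set G) (δ : ℝ) (hδ : 0 < δ)
    (hm : m.val (A.indicator fun _ => 1) = δ) (P : Type) [Fintype P] [Nonempty P] (e : P → G) :
    ∃ (x : G) (A' : Finset P), (∀ f, f ∈ A' ↔ x + e f ∈ A) ∧
      δ / 2 * Fintype.card P ≤ A'.card := by
  classical
  by_contra hcon
  push Not at hcon
  have hP : (0 : ℝ) < Fintype.card P := by exact_mod_cast Fintype.card_pos
  have hbd : ∀ f : P, Bdd (fun x : G => A.indicator (fun _ => (1 : ℝ)) (x + e f)) := by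
    intro f
    refine ⟨1, fun x => ?_⟩
    show |A.indicator (fun _ => (1 : ℝ)) (x + e f)| ≤ 1
    by_cases h : x + e f ∈ A
    · rw [Set.indicator_of_mem h]; simp
    · rw [Set.indicator_of_notMem h]; simp
  have hbA : Bdd (A.indicator (fun _ => (1 : ℝ))) := by
    refine ⟨1, fun x => ?_⟩
    by_cases h : x ∈ A
    · rw [Set.indicator_of_mem h]; simp
    · rw [Set.indicator_of_notMem h]; simp
  have h1 : m.val (fun x => ∑ f : P, A.indicator (fun _ => (1 : ℝ)) (x + e f))
      = Fintype.card P * δ := by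
    rw [m.sum Finset.univ (fun f x => A.indicator (fun _ => (1 : ℝ)) (x + e f)) hbd]
    have : ∀ f : P, m.val (fun x => A.indicator (fun _ => (1 : ℝ)) (x + e f)) = δ := by
      intro f
      rw [m.trans _ (e f) hbA, hm]
    simp [this]
  have h2 : m.val (fun x => ∑ f : P, A.indicator (fun _ => (1 : ℝ)) (x + e f))
      ≤ m.val (fun _ => δ / 2 * Fintype.card P) := by
    refine m.mono (bdd_sum _ _ hbd) (bdd_const _) fun x => ?_
    have h3 := hcon x (Finset.univ.filter fun f => x + e f ∈ A) (by simp)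
    refine le_trans (le_of_eq ?_) h3.le
    simp only [Set.indicator_apply]
    rw [Finset.sum_ite]
    simp
  rw [h1, m.const] at h2
  nlinarith

end VdCExp
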