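import Pool.Agent.R297.VC.Defs

/-! The product measure on the dual group. -/

open MeasureTheory

namespace VdCExp

/-- signs -/
def sg (b : Bool) : ZMod 3 := if b then 1 else -1

/-- value of a block character -/
noncomputable def bc {n : ℕ} (v : Fin n → ZMod 3) (p : Fin n × Bool) : Circle :=
  ZMod.toCircle (sg p.2 * v p.1)

lemma circ_sum (x : ZMod 3) :
    ((ZMod.toCircle (sg true * x) : Circle) : ℂ) + ((ZMod.toCircle (sg false * x) : Circle) : ℂ)
      = if x = 0 then 2 else -1 := by
  have key : ((ZMod.toCircle (1 : ZMod 3) : Circle) : ℂ) + ((ZMod.toCircle (2 : ZMod 3) : Circle) : ℂ)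
      = -1 := by
    set z : ℂ := ((ZMod.toCircle (1 : ZMod 3) : Circle) : ℂ) with hz
    have h2 : ((ZMod.toCircle (2 : ZMod 3) : Circle) : ℂ) = z * z := by
      rw [show (2 : ZMod 3) = 1 + 1 by decide, AddChar.map_add_eq_mul, Circle.coe_mul]
    have h3 : z * z * z = 1 := by
      rw [← h2, hz, ← Circle.coe_mul, ← AddChar.map_add_eq_mul, show (2 + 1 : ZMod 3) = 0 by decide,
        AddChar.map_zero_eq_one, Circle.coe_one]
    have h1 : z ≠ 1 := by
      intro h
      have h1 : ZMod.toCircle (1 : ZMod 3) = ZMod.toCircle (0 : ZMod 3) := by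
        rw [AddChar.map_zero_eq_one]
        ext
        rw [Circle.coe_one]
        exact h
      exact absurd (ZMod.injective_toCircle h1) (by decide)
    have h4 : (z - 1) * (z * z + z + 1) = 0 := by
      linear_combination h3
    rcases mul_eq_zero.mp h4 with h | h
    · exact absurd (sub_eq_zero.mp h) h1
    · rw [h2]; linear_combination h
  have hx : x = 0 ∨ x = 1 ∨ x = 2 := by
    revert x; decide
  rcases hx with rfl | rfl | rfl
  · rw [mul_zero, mul_zero, AddChar.map_zero_eq_one, Circle.coe_one, if_pos rfl]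
    norm_num
  · have e1 : sg true * (1 : ZMod 3) = 1 := by decide
    have e2 : sg false * (1 : ZMod 3) = 2 := by decide
    rw [e1, e2, if_neg (by decide)]
    exact key
  · have e1 : sg true * (2 : ZMod 3) = 2 := by decide
    have e2 : sg false * (2 : ZMod 3) = 1 := by decide
    rw [e1, e2, if_neg (by decide), add_comm]
    exact key

lemma toCircle_sum {ι : Type} (s : Finset ι) (f : ι → ZMod 3) :
    ZMod.toCircle (∑ i ∈ s, f i) = ∏ i ∈ s, ZMod.toCircle (f i) := by
  classical
  induction s using Finset.induction_on with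
  | empty => simp
  | insert a s ha ih => rw [Finset.sum_insert ha, Finset.prod_insert ha, AddChar.map_add_eq_mul, ih]

lemma block_sum {n : ℕ} (hn : 0 < n) (v : Fin n → ZMod 3) :
    ∑ p : Fin n × Bool, (1 / (2 * n) : ℝ) • ((bc v p : Circle) : ℂ)
      = ((1 - 3 / 2 * ((wt v : ℝ) / n) : ℝ) : ℂ) := by
  rw [← Finset.smul_sum, Fintype.sum_prod_type]
  simp_rw [Fintype.sum_bool, bc, circ_sum]
  have h1 : ∑ x : Fin n, (if v x = 0 then (2 : ℂ) else -1) = 2 * n - 3 * (wt v : ℂ) := by
    have h2 : ∀ x, (if v x = 0 then (2 : ℂ) else -1) = 2 - 3 * (if v x ≠ 0 then 1 else 0) := by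
      intro x
      by_cases h : v x = 0
      · simp [h]
      · simp [h]; norm_num
    simp_rw [h2]
    rw [Finset.sum_sub_distrib, ← Finset.mul_sum, Finset.sum_boole]
    simp [wt, mul_comm]
  rw [h1, Complex.real_smul]
  have hn' : (n : ℂ) ≠ 0 := by exact_mod_cast hn.ne'
  push_cast
  field_simp

/-- the additive functional -/
noncomputable def lin (N : ℕ → ℕ) (ω : ∀ n, Fin (N n) × Bool) : GG N →+ ZMod 3 :=
  DFinsupp.sumAddHom fun n => (AddMonoidHom.mulLeft (sg (ω n).2)).comp
    (Pi.evalAddMonoidHom (fun _ : Fin (N n) => ZMod 3) (ω n).1)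

lemma lin_apply (N : ℕ → ℕ) (ω : ∀ n, Fin (N n) × Bool) (g : GG N) :
    lin N ω g = ∑ n ∈ g.support, sg (ω n).2 * g n (ω n).1 := by
  unfold lin
  rw [DFinsupp.sumAddHom_apply, DFinsupp.sum]
  rfl

/-- the random character -/
noncomputable def rch (N : ℕ → ℕ) (ω : ∀ n, Fin (N n) × Bool) : Dual (GG N) :=
  ⟨fun g => ZMod.toCircle (lin N ω g), fun x y => by
    show ZMod.toCircle (lin N ω (x + y)) = ZMod.toCircle (lin N ω x) * ZMod.toCircle (lin N ω y)
    rw [map_add, AddChar.map_add_eq_mul]⟩

lemma rch_apply (N : ℕ → ℕ) (ω : ∀ n, Fin (N n) × Bool) (g : GG N) :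
    (rch N ω).1 g = ∏ n ∈ g.support, bc (g n) (ω n) := by
  show ZMod.toCircle (lin N ω g) = _
  rw [lin_apply, toCircle_sum]
  rfl

lemma measurable_rch (N : ℕ → ℕ) : Measurable (rch N) := by
  letI : MeasurableSpace Circle := borel Circle
  haveI : BorelSpace Circle := ⟨rfl⟩
  have hb : (borel (Dual (GG N))) =
      (inferInstance : MeasurableSpace {χ : GG N → Circle // ∀ x y, χ (x + y) = χ x * χ y}) := by
    have := (inferInstance :
      BorelSpace {χ : GG N → Circle // ∀ x y, χ (x + y) = χ x * χ y}).measurable_eq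
    exact this.symm
  have h1 : @Measurable _ {χ : GG N → Circle // ∀ x y, χ (x + y) = χ x * χ y} _ _ (rch N) := by
    refine Measurable.subtype_mk ?_ (f := fun ω g => (rch N ω).1 g)
    rw [measurable_pi_iff]
    intro g
    simp_rw [rch_apply]
    refine Finset.measurable_prod _ fun n _ => ?_
    exact (measurable_of_countable (bc (g n))).comp (measurable_pi_apply n)
  intro s hs
  refine h1 ?_
  have hs' : @MeasurableSet _ (borel (Dual (GG N))) s := hs
  rw [hb] at hs'
  exact hs'

theorem stmtMeasure : StmtMeasure := by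
  intro N hN
  classical
  haveI : ∀ n, Nonempty (Fin (N n) × Bool) := fun n => ⟨⟨⟨0, hN n⟩, true⟩⟩
  let μ : ∀ n, Measure (Fin (N n) × Bool) := fun n => (PMF.uniformOfFintype (Fin (N n) × Bool)).toMeasure
  haveI hμ : ∀ n, IsProbabilityMeasure (μ n) := fun n => by
    show IsProbabilityMeasure (PMF.uniformOfFintype (Fin (N n) × Bool)).toMeasure
    infer_instance
  refine ⟨(Measure.infinitePi μ).map (rch N), ?_, ?_⟩
  · exact Measure.isProbabilityMeasure_map (measurable_rch N).aemeasurable
  · intro g
    have hc1 : Continuous (fun z : Circle => (z : ℂ)) := continuous_induced_dom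
    have hc : Continuous fun χ : Dual (GG N) => (χ.1 g : ℂ) :=
      hc1.comp ((continuous_apply g).comp continuous_subtype_val)
    rw [integral_map (measurable_rch N).aemeasurable hc.measurable.aestronglyMeasurable]
    let F : (∀ i : g.support, Fin (N i) × Bool) → ℂ := fun y =>
      ∏ i : g.support, ((bc (g i) (y i) : Circle) : ℂ)
    have h1 : ∀ ω : (∀ n, Fin (N n) × Bool), (((rch N ω).1 g : Circle) : ℂ)
        = F (g.support.restrict ω) := by
      intro ω
      rw [rch_apply]
      have e1 : F (g.support.restrict ω) = ∏ n ∈ g.support, ((bc (g n) (ω n) : Circle) : ℂ) :=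
        Finset.prod_coe_sort g.support (fun n => ((bc (g n) (ω n) : Circle) : ℂ))
      rw [e1]
      exact map_prod Circle.coeHom _ _
    have h2 : ∫ ω, (((rch N ω).1 g : Circle) : ℂ) ∂(Measure.infinitePi μ)
        = ∫ ω, F (g.support.restrict ω) ∂(Measure.infinitePi μ) :=
      integral_congr_ae (Filter.Eventually.of_forall h1)
    refine h2.trans ?_
    rw [integral_restrict_infinitePi]
    · rw [integral_fintype_prod_eq_prod (μ := fun i : g.support => μ i)
        (fun (i : g.support) (y : Fin (N i) × Bool) => ((bc (g i) y : Circle) : ℂ))]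
      rw [Complex.ofReal_prod, ← Finset.prod_coe_sort g.support]
      refine Finset.prod_congr rfl fun i _ => ?_
      show ∫ y, ((bc (g i) y : Circle) : ℂ) ∂((PMF.uniformOfFintype (Fin (N i) × Bool)).toMeasure) = _
      rw [PMF.integral_eq_sum]
      rw [psi, ← block_sum (hN i) (g i)]
      refine Finset.sum_congr rfl fun p _ => ?_
      congr 1
      simp [mul_comm]
    · refine Measurable.aestronglyMeasurable ?_
      refine Finset.measurable_prod _ fun i _ => ?_
      exact (measurable_of_countable (fun y => ((bc (g i) y : Circle) : ℂ))).comp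
        (measurable_pi_apply i)

end VdCExp
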