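import Pool.Agent.R297.VC.Fourier

/-! Smoothing: the exact sphere against the product noise. -/

open Finset Filter Topology

namespace VdCExp

/-- number of `D`-sets containing a given set -/
lemma card_supersets {N D : ℕ} (T : Finset (Fin N)) (hT : T.card ≤ D) :
    ((Finset.powersetCard D (Finset.univ : Finset (Fin N))).filter fun R => T ⊆ R).card
      = (N - T.card).choose (D - T.card) := by
  classical
  have h1 : (Finset.powersetCard (D - T.card) (Finset.univ \ T : Finset (Fin N))).card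
      = (N - T.card).choose (D - T.card) := by
    rw [Finset.card_powersetCard, Finset.card_sdiff_of_subset (Finset.subset_univ _)]
    simp
  rw [← h1]
  refine Finset.card_bij' (fun R _ => R \ T) (fun R _ => R ∪ T) ?_ ?_ ?_ ?_
  · intro R hR
    rw [Finset.mem_filter, Finset.mem_powersetCard] at hR
    rw [Finset.mem_powersetCard]
    refine ⟨Finset.sdiff_subset_sdiff (Finset.subset_univ _) le_rfl, ?_⟩
    rw [Finset.card_sdiff_of_subset hR.2, hR.1.2]
  · intro R hR
    rw [Finset.mem_powersetCard] at hR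
    rw [Finset.mem_filter, Finset.mem_powersetCard]
    refine ⟨⟨Finset.subset_univ _, ?_⟩, Finset.subset_union_right⟩
    rw [Finset.card_union_of_disjoint, hR.2]
    · omega
    · exact Finset.disjoint_of_subset_left hR.1 Finset.sdiff_disjoint
  · intro R hR
    rw [Finset.mem_filter] at hR
    exact Finset.sdiff_union_of_subset hR.2
  · intro R hR
    rw [Finset.mem_powersetCard] at hR
    have : Disjoint R T := Finset.disjoint_of_subset_left hR.1 Finset.sdiff_disjoint
    rw [Finset.union_sdiff_right]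
    exact Finset.sdiff_eq_self_of_disjoint this

/-- the average of `z ^ |R ∩ K|` over `D`-sets -/
noncomputable def av (N D : ℕ) (z : ℝ) (K : Finset (Fin N)) : ℝ :=
  (∑ R ∈ Finset.powersetCard D (Finset.univ : Finset (Fin N)), z ^ (R ∩ K).card) / N.choose D

/-- `rho_j` -/
noncomputable def rho (N D j : ℕ) : ℝ := ((N - j).choose (D - j) : ℝ) / N.choose D

lemma pow_inter {N : ℕ} (z : ℝ) (R K : Finset (Fin N)) :
    z ^ (R ∩ K).card = ∑ T ∈ K.powerset, (z - 1) ^ T.card * (if T ⊆ R then 1 else 0) := by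
  classical
  have h1 : z ^ (R ∩ K).card = ∏ i ∈ K, (1 + (if i ∈ R then z - 1 else 0)) := by
    have : ∀ i ∈ K, (1 + (if i ∈ R then z - 1 else 0)) = if i ∈ R then z else 1 := by
      intro i _
      split_ifs <;> ring
    rw [Finset.prod_congr rfl this, Finset.prod_ite_mem, Finset.prod_const, Finset.inter_comm]
  rw [h1, Finset.prod_one_add]
  refine Finset.sum_congr rfl fun T _ => ?_
  by_cases hT : T ⊆ R
  · rw [if_pos hT, mul_one, ← Finset.prod_const]
    refine Finset.prod_congr rfl fun i hi => ?_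
    rw [if_pos (hT hi)]
  · rw [if_neg hT, mul_zero]
    obtain ⟨i, hi, hiR⟩ := Finset.not_subset.mp hT
    exact Finset.prod_eq_zero hi (by rw [if_neg hiR])

lemma av_eq {N D : ℕ} (z : ℝ) (K : Finset (Fin N)) (hK : K.card ≤ D) :
    av N D z K = ∑ T ∈ K.powerset, (z - 1) ^ T.card * rho N D T.card := by
  classical
  unfold av
  simp_rw [pow_inter z _ K]
  rw [Finset.sum_comm, Finset.sum_div]
  refine Finset.sum_congr rfl fun T hT => ?_
  rw [Finset.mem_powerset] at hT
  have hTc : T.card ≤ D := (Finset.card_le_card hT).trans hK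
  rw [← Finset.mul_sum, ← Finset.sum_filter, Finset.sum_const, card_supersets T hTc, rho]
  simp [mul_div_assoc]

lemma sum_pow_powerset {N : ℕ} (x : ℝ) (K : Finset (Fin N)) :
    ∑ T ∈ K.powerset, x ^ T.card = (1 + x) ^ K.card := by
  classical
  have := Finset.prod_one_add (f := fun _ : Fin N => x) K
  rw [Finset.prod_const] at this
  rw [this]
  refine Finset.sum_congr rfl fun T _ => ?_
  rw [Finset.prod_const]

/-- closeness for small `K` -/
lemma av_close {N D m : ℕ} (z θ ε : ℝ) (hε : 0 ≤ ε) (hmD : m ≤ D)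
    (hρ : ∀ j ≤ m, |rho N D j - θ ^ j| ≤ ε) (K : Finset (Fin N)) (hK : K.card ≤ m) :
    |av N D z K - (1 + (z - 1) * θ) ^ K.card| ≤ (1 + |z - 1|) ^ m * ε := by
  classical
  rw [av_eq z K (hK.trans hmD), ← sum_pow_powerset, ← Finset.sum_sub_distrib]
  refine (Finset.abs_sum_le_sum_abs _ _).trans ?_
  calc ∑ T ∈ K.powerset, |(z - 1) ^ T.card * rho N D T.card - ((z - 1) * θ) ^ T.card|
      ≤ ∑ T ∈ K.powerset, |z - 1| ^ T.card * ε := by
        refine Finset.sum_le_sum fun T hT => ?_
        rw [Finset.mem_powerset] at hT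
        rw [mul_pow, ← mul_sub, abs_mul, abs_pow]
        exact mul_le_mul_of_nonneg_left (hρ _ ((Finset.card_le_card hT).trans hK)) (by positivity)
    _ = (1 + |z - 1|) ^ K.card * ε := by
        rw [← Finset.sum_mul, sum_pow_powerset]
    _ ≤ (1 + |z - 1|) ^ m * ε := by
        refine mul_le_mul_of_nonneg_right ?_ hε
        exact pow_le_pow_right₀ (by linarith [abs_nonneg (z - 1)]) hK

lemma rho_tendsto (p q : ℕ) (hp : 0 < p) (hpq : p < q) (j : ℕ) :
    Tendsto (fun M : ℕ => rho (q * M) (p * M) j) atTop (𝓝 (((p : ℝ) / q) ^ j)) := by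
  induction j with
  | zero =>
    simp only [rho, Nat.sub_zero, pow_zero]
    refine tendsto_const_nhds.congr fun M => ?_
    rw [div_self]
    have : 0 < (q * M).choose (p * M) := Nat.choose_pos (Nat.mul_le_mul_right M hpq.le)
    exact_mod_cast this.ne'
  | succ j ih =>
    have hratio : Tendsto (fun M : ℕ => ((p : ℝ) * M - j) / ((q : ℝ) * M - j)) atTop
        (𝓝 ((p : ℝ) / q)) := by
      have hq : (q : ℝ) ≠ 0 := by
        have : 0 < q := by omega
        exact_mod_cast this.ne'
      have h1 : Tendsto (fun M : ℕ => (j : ℝ) / (M : ℝ)) atTop (𝓝 0) :=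
        tendsto_const_div_atTop_nhds_zero_nat _
      have h2 : Tendsto (fun M : ℕ => ((p : ℝ) - (j : ℝ) / M) / ((q : ℝ) - (j : ℝ) / M)) atTop
          (𝓝 (((p : ℝ) - 0) / ((q : ℝ) - 0))) :=
        (tendsto_const_nhds.sub h1).div (tendsto_const_nhds.sub h1) (by simpa using hq)
      rw [sub_zero, sub_zero] at h2
      refine h2.congr' ?_
      filter_upwards [eventually_gt_atTop 0] with M hM
      have hM' : (M : ℝ) ≠ 0 := by exact_mod_cast hM.ne'
      rw [show ((p : ℝ) * M - j) = ((p : ℝ) - j / M) * M by field_simp,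
        show ((q : ℝ) * M - j) = ((q : ℝ) - j / M) * M by field_simp,
        mul_div_mul_right _ _ hM']
    have h3 := ih.mul hratio
    rw [← pow_succ] at h3
    refine h3.congr' ?_
    filter_upwards [eventually_gt_atTop j] with M hM
    have hpM : j < p * M := lt_of_lt_of_le hM (Nat.le_mul_of_pos_left M hp)
    have hqM : p * M ≤ q * M := Nat.mul_le_mul_right M hpq.le
    have hj : j < q * M := hpM.trans_le hqM
    have hrec := Nat.add_one_mul_choose_eq (q * M - (j + 1)) (p * M - (j + 1))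
    rw [show q * M - (j + 1) + 1 = q * M - j by omega,
      show p * M - (j + 1) + 1 = p * M - j by omega] at hrec
    have hrec' : ((q : ℝ) * M - j) * ((q * M - (j + 1)).choose (p * M - (j + 1)) : ℝ)
        = ((q * M - j).choose (p * M - j) : ℝ) * ((p : ℝ) * M - j) := by
      have := congrArg (Nat.cast : ℕ → ℝ) hrec
      push_cast [Nat.cast_sub hj.le, Nat.cast_sub hpM.le] at this
      exact this
    have hpos : (0 : ℝ) < (q : ℝ) * M - j := by
      have : (j : ℝ) < (q : ℝ) * M := by exact_mod_cast hj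
      linarith
    unfold rho
    rw [div_mul_div_comm, mul_comm ((q * M).choose (p * M) : ℝ), ← hrec', ]
    rw [mul_div_mul_left _ _ hpos.ne']

/-- The exact sphere and the product noise have close transforms, uniformly. -/
lemma smoothing (p q : ℕ) (hp : 0 < p) (hpq : p < q) (ε : ℝ) (hε : 0 < ε) :
    ∀ᶠ M : ℕ in atTop, ∀ K : Finset (Fin (q * M)),
      |av (q * M) (p * M) (-1 / 2) K - (1 - 3 / 2 * ((p : ℝ) / q)) ^ K.card| ≤ ε := by
  classical
  set θ : ℝ := (p : ℝ) / q with hθ
  have hq0 : (0 : ℝ) < q := by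
    have : 0 < q := by omega
    exact_mod_cast this
  have hθ0 : 0 < θ := by
    have : (0 : ℝ) < p := by exact_mod_cast hp
    positivity
  have hθ1 : θ < 1 := by
    rw [hθ, div_lt_one hq0]; exact_mod_cast hpq
  -- choose m
  have ha : |1 - 3 / 2 * θ| < 1 := by
    rw [abs_lt]; constructor <;> linarith
  obtain ⟨m1, hm1⟩ := exists_pow_lt_of_lt_one (show (0 : ℝ) < ε / 4 by positivity) ha
  obtain ⟨m2, hm2⟩ := exists_pow_lt_of_lt_one (show (0 : ℝ) < ε / 4 by positivity)
    (show 1 - θ / 2 < 1 by linarith)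
  set m := max m1 m2 with hm
  have hm1' : |1 - 3 / 2 * θ| ^ m ≤ ε / 4 :=
    (pow_le_pow_of_le_one (abs_nonneg _) ha.le (le_max_left _ _)).trans hm1.le
  have hm2' : (1 - θ / 2) ^ m ≤ ε / 4 :=
    (pow_le_pow_of_le_one (by linarith) (by linarith) (le_max_right _ _)).trans hm2.le
  set ε' : ℝ := ε / 4 / (5 / 2) ^ m with hε'
  have hε'0 : 0 < ε' := by positivity
  have hrho : ∀ᶠ M : ℕ in atTop, ∀ j ≤ m, |rho (q * M) (p * M) j - θ ^ j| ≤ ε' := by
    have : ∀ᶠ M : ℕ in atTop, ∀ j ∈ Finset.range (m + 1), |rho (q * M) (p * M) j - θ ^ j| ≤ ε' := by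
      rw [Filter.eventually_all_finset]
      intro j _
      have h := (rho_tendsto p q hp hpq j)
      have h2 := (Metric.tendsto_nhds.mp h) ε' hε'0
      filter_upwards [h2] with M hM
      rw [Real.dist_eq] at hM
      exact hM.le
    filter_upwards [this] with M hM j hj
    exact hM j (Finset.mem_range.mpr (by omega))
  filter_upwards [hrho, eventually_ge_atTop (m + 1)] with M hM hMm K
  have hmD : m ≤ p * M := by
    calc m ≤ M := by omega
      _ ≤ p * M := Nat.le_mul_of_pos_left M hp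
  have hpow : ∀ x : ℝ, |x| ≤ 5 / 2 → |x| ^ m * ε' ≤ ε / 4 := by
    intro x hx
    calc |x| ^ m * ε' ≤ (5 / 2) ^ m * ε' := by
          refine mul_le_mul_of_nonneg_right (pow_le_pow_left₀ (abs_nonneg _) hx m) hε'0.le
      _ = ε / 4 := by
          rw [hε']; field_simp
  by_cases hK : K.card ≤ m
  · have h1 := av_close (-1 / 2) θ ε' hε'0.le hmD hM K hK
    rw [show (1 + (-1 / 2 - 1) * θ) = 1 - 3 / 2 * θ by ring] at h1
    refine h1.trans ?_
    have h2 : (1 + |(-1 / 2 : ℝ) - 1|) = 5 / 2 := by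
      rw [abs_of_neg (by norm_num)]; norm_num
    rw [h2, hε']
    have : (5 / 2 : ℝ) ^ m * (ε / 4 / (5 / 2) ^ m) = ε / 4 := by field_simp
    rw [this]; linarith
  · push Not at hK
    obtain ⟨K', hK'K, hK'm⟩ := Finset.exists_subset_card_eq hK.le
    have h1 : |av (q * M) (p * M) (-1 / 2) K| ≤ av (q * M) (p * M) (1 / 2) K' := by
      unfold av
      rw [abs_div, Nat.abs_cast]
      refine div_le_div_of_nonneg_right ?_ (Nat.cast_nonneg _)
      refine (Finset.abs_sum_le_sum_abs _ _).trans (Finset.sum_le_sum fun R _ => ?_)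
      rw [abs_pow, show |(-1 / 2 : ℝ)| = 1 / 2 by rw [abs_of_neg (by norm_num)]; norm_num]
      exact pow_le_pow_of_le_one (by norm_num) (by norm_num)
        (Finset.card_le_card (Finset.inter_subset_inter_left hK'K))
    have h2 := av_close (1 / 2) θ ε' hε'0.le hmD hM K' hK'm.le
    rw [show (1 + ((1 : ℝ) / 2 - 1) * θ) = 1 - θ / 2 by ring, hK'm] at h2
    have h3 : (1 + |(1 / 2 : ℝ) - 1|) ^ m * ε' ≤ ε / 4 := by
      have := hpow (1 + |(1 / 2 : ℝ) - 1|) (by
        rw [abs_of_neg (show (1 / 2 : ℝ) - 1 < 0 by norm_num)]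
        rw [abs_of_pos (by norm_num)]; norm_num)
      rwa [abs_of_nonneg (by positivity : (0 : ℝ) ≤ 1 + |(1 / 2 : ℝ) - 1|)] at this
    have h4 : av (q * M) (p * M) (1 / 2) K' ≤ ε / 2 := by
      have := (abs_le.mp (h2.trans h3)).2
      linarith
    have h5 : |(1 - 3 / 2 * θ) ^ K.card| ≤ ε / 4 := by
      rw [abs_pow]
      exact (pow_le_pow_of_le_one (abs_nonneg _) ha.le hK.le).trans hm1'
    calc |av (q * M) (p * M) (-1 / 2) K - (1 - 3 / 2 * θ) ^ K.card|
        ≤ |av (q * M) (p * M) (-1 / 2) K| + |(1 - 3 / 2 * θ) ^ K.card| := abs_sub _ _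
      _ ≤ ε := by linarith

end VdCExp
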